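import Pool.Agent.N659.HB.Stm5
import Pool.Agent.W62.WA.WD
import Pool.Agent.W988.WA.KC

/-!
Hopping amplitudes of one level of high frequency (project NP of helper659, part HOPM).
Lean proof: helper768.
-/

set_option autoImplicit false

namespace Pool.Agent.N768.NP.HopM

open MeasureTheory Filter Set
open scoped Topology
open Pool.Agent.W792.WA Pool.Agent.W792.LL Pool.Agent.W191.LL UnitAddTorus
open Pool.Agent.N659.HB Pool.Agent.W62.WA.WD

noncomputable section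

/-- the mean of the function is its zeroth Fourier coefficient -/
lemma coeff_zero (ψ : C(UnitAddCircle, ℝ))
    (h : (∫ φ in Set.Ioc (0 : ℝ) 1, ψ (φ : UnitAddCircle)) = 0) :
    fourierCoeff (fun t : UnitAddCircle => ((ψ t : ℝ) : ℂ)) 0 = 0 := by
  rw [fourierCoeff_eq_intervalIntegral _ 0 0]
  rw [intervalIntegral.integral_of_le (by norm_num)]
  have : ∀ x : ℝ, fourier (-0) (x : AddCircle (1 : ℝ)) • ((ψ (x : UnitAddCircle) : ℝ) : ℂ) =
      ((ψ (x : UnitAddCircle) : ℝ) : ℂ) := by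
    intro x
    simp
  simp only [this, zero_add]
  have e : (∫ x in Set.Ioc (0 : ℝ) 1, ((ψ (x : UnitAddCircle) : ℝ) : ℂ)) =
      ((∫ x in Set.Ioc (0 : ℝ) 1, ψ (x : UnitAddCircle) : ℝ) : ℂ) := integral_complex_ofReal
  rw [e, h]
  simp

/-- interpolation between the decay in `t` and the decay in `x` -/
lemma interp {d : ℕ} (hd : 0 < d) {g C D A X T : ℝ} (hg : 0 ≤ g) (hgd : g < (d : ℝ) / 3)
    (hC : 0 < C) (hD : 0 < D) (hA : 0 ≤ A) (hX : 0 < X) (hT : 0 < T)
    (h1 : A ≤ C / X ^ ((d : ℝ) / 3)) (h2 : A ≤ D / T ^ ((d : ℝ) / 3)) :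
    A ≤ (C ^ (3 * g / d) * D ^ (1 - 3 * g / d)) / (X ^ g * T ^ ((d : ℝ) / 3 - g)) := by
  have hd' : (0 : ℝ) < d := by exact_mod_cast hd
  have hθ0 : 0 ≤ 3 * g / d := by positivity
  have hθ1 : 0 ≤ 1 - 3 * g / d := by
    rw [sub_nonneg, div_le_one hd']
    linarith
  have e1 : A = A ^ (3 * g / d) * A ^ (1 - 3 * g / d) := by
    rw [← Real.rpow_add_of_nonneg hA hθ0 hθ1]
    rw [show 3 * g / (d : ℝ) + (1 - 3 * g / d) = 1 by ring, Real.rpow_one]
  have e2 : (X ^ ((d : ℝ) / 3)) ^ (3 * g / d) = X ^ g := by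
    rw [← Real.rpow_mul hX.le]
    congr 1
    field_simp
  have e3 : (T ^ ((d : ℝ) / 3)) ^ (1 - 3 * g / d) = T ^ ((d : ℝ) / 3 - g) := by
    rw [← Real.rpow_mul hT.le]
    congr 1
    field_simp
  calc A = A ^ (3 * g / d) * A ^ (1 - 3 * g / d) := e1
    _ ≤ (C / X ^ ((d : ℝ) / 3)) ^ (3 * g / d) * (D / T ^ ((d : ℝ) / 3)) ^ (1 - 3 * g / d) := by
        gcongr
    _ = _ := by
        rw [Real.div_rpow hC.le (by positivity), Real.div_rpow hD.le (by positivity), e2, e3,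
          div_mul_div_comm]

theorem main : S_KA → S_KC → S_WB → S_HOPM := by
  rintro ⟨C1, hC1, hA⟩ hKC hWB d ψ g ε hd hg hgd hε hHol hmean
  obtain ⟨C, hC, hb⟩ := hKC d hd
  have hsum := hWB ψ hHol
  have hd' : (0 : ℝ) < d := by exact_mod_cast hd
  let ψC : C(UnitAddCircle, ℂ) := ⟨fun t => ((ψ t : ℝ) : ℂ), by fun_prop⟩
  let c : ℤ → ℂ := fourierCoeff ψC
  have hsum' : Summable fun h => ‖c h‖ := hsum
  have hc0 : c 0 = 0 := coeff_zero ψ hmean
  have hps : ∀ y, HasSum (fun i => c i • fourier i y) (ψC y) :=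
    has_pointwise_sum_fourier_series_of_summable (f := ψC) hsum'.of_norm
  have hT : 0 ≤ ∑' h, ‖c h‖ := tsum_nonneg fun _ => norm_nonneg _
  set S : ℝ := ∑' h, ‖c h‖ with hS0
  -- decay of the kernel
  have hker : ∀ (t : ℝ) (x : Fin d → ℤ), ‖mFourierCoeff (ex d t) x‖ ≤
      (C ^ (3 * g / d) * (C1 ^ d) ^ (1 - 3 * g / d)) /
        ((1 + ‖x‖) ^ g * (1 + |t|) ^ ((d : ℝ) / 3 - g)) := by
    intro t x
    refine interp hd hg hgd hC (by positivity) (norm_nonneg _) (by positivity) (by positivity)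
      (hb t x) ?_
    have h1 : mFourierCoeff (ex d t) x = ∏ i : Fin d, k1 t (-x i) :=
      Pool.Agent.W988.WA.KC.prodform d t x
    rw [h1, norm_prod]
    calc ∏ i : Fin d, ‖k1 t (-x i)‖ ≤ ∏ _i : Fin d, C1 / (1 + |t|) ^ (1 / 3 : ℝ) :=
          Finset.prod_le_prod (fun _ _ => norm_nonneg _) fun i _ => hA t _
      _ = C1 ^ d / (1 + |t|) ^ ((d : ℝ) / 3) := by
          rw [Finset.prod_const, Finset.card_univ, Fintype.card_fin, div_pow,
            ← Real.rpow_mul_natCast (by positivity)]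
          congr 2
          ring
  set D : ℝ := C ^ (3 * g / d) * (C1 ^ d) ^ (1 - 3 * g / d) with hD
  have hDp : 0 < D := by positivity
  set b : ℝ := (d : ℝ) / 3 - g with hbdef
  have hbp : 0 < b := by rw [hbdef]; linarith
  -- the choice of the frequency
  have hlim : Tendsto (fun M : ℕ => (1 + (M : ℝ)) ^ b) atTop atTop := by
    refine (tendsto_rpow_atTop hbp).comp ?_
    exact tendsto_atTop_add_const_left _ _ tendsto_natCast_atTop_atTop
  obtain ⟨M₀, hM₀⟩ := (tendsto_atTop.1 hlim (S * D / ε)).exists_forall_of_atTop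
  refine ⟨M₀, fun M hM x => ?_⟩
  have hM1 := hM₀ M hM
  let F : ℤ → UnitAddTorus (Fin d) → ℂ := fun h t =>
    mFourier (-x) t * (c h * ex d ((h : ℝ) * M) t)
  have hFi : ∀ h, Integrable (F h) (mu d) := fun h =>
    mfc_int (fun t => c h * ex d ((h : ℝ) * M) t) (continuous_const.mul (ex_cont d _)) (-x)
  have hFn : ∀ h t, ‖F h t‖ ≤ ‖c h‖ := by
    intro h t
    simp only [F]
    rw [norm_mul, norm_mul, ex_norm, mul_one]
    calc ‖mFourier (-x) t‖ * ‖c h‖ ≤ 1 * ‖c h‖ :=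
          mul_le_mul_of_nonneg_right (mf_norm _ _) (norm_nonneg _)
      _ = ‖c h‖ := one_mul _
  have hFs : Summable fun h => ∫ t, ‖F h t‖ ∂(mu d) := by
    refine Summable.of_nonneg_of_le (fun h => integral_nonneg fun t => norm_nonneg _) ?_ hsum'
    intro h
    calc ∫ t, ‖F h t‖ ∂(mu d) ≤ ∫ _, ‖c h‖ ∂(mu d) :=
          integral_mono (hFi h).norm (integrable_const _) (fun t => hFn h t)
      _ = ‖c h‖ := by simp
  have hS := hasSum_integral_of_summable_integral_norm hFi hFs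
  have e1 : (∫ t, (∑' h, F h t) ∂(mu d)) = mFourierCoeff (fun k : UnitAddTorus (Fin d) =>
      ((ψ ((M * lap d k / (2 * Real.pi) : ℝ) : UnitAddCircle) : ℝ) : ℂ)) x := by
    rw [mfc_eq]
    congr 1
    ext t
    have h1 := (hps (ph d M t)).mul_left (mFourier (-x) t)
    have h2 : (fun i => mFourier (-x) t * (c i • fourier i (ph d M t))) = fun i => F i t := by
      funext i
      simp only [F]
      rw [four, smul_eq_mul]
    rw [h2] at h1
    rw [h1.tsum_eq]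
    rfl
  have e2 : ∀ h, ∫ t, F h t ∂(mu d) = c h * mFourierCoeff (ex d ((h : ℝ) * M)) x := by
    intro h
    rw [← mfc_smul, mfc_eq]
  rw [e1] at hS
  have hX : 0 < (1 + ‖x‖) ^ g := by positivity
  have hMp : 0 < (1 + (M : ℝ)) ^ b := by positivity
  have hbd : ∀ h, ‖∫ t, F h t ∂(mu d)‖ ≤
      ‖c h‖ * (D / ((1 + ‖x‖) ^ g * (1 + (M : ℝ)) ^ b)) := by
    intro h
    rw [e2, norm_mul]
    by_cases h0 : h = 0
    · rw [h0, hc0, norm_zero, zero_mul, zero_mul]
    refine mul_le_mul_of_nonneg_left ?_ (norm_nonneg _)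
    refine (hker ((h : ℝ) * M) x).trans ?_
    have h3 : (M : ℝ) ≤ |(h : ℝ) * M| := by
      rw [abs_mul, abs_of_nonneg (a := (M : ℝ)) (Nat.cast_nonneg M)]
      have h4 : (1 : ℝ) ≤ |(h : ℝ)| := by
        have := Int.one_le_abs h0
        exact_mod_cast this
      nlinarith [Nat.cast_nonneg (α := ℝ) M]
    gcongr
  have hle := hS.norm_le_of_bounded
    (hsum'.hasSum.mul_right (D / ((1 + ‖x‖) ^ g * (1 + (M : ℝ)) ^ b))) hbd
  refine hle.trans ?_
  rw [← hS0, ← mul_div_assoc, div_le_div_iff₀ (by positivity) hX]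
  rw [div_le_iff₀ hε] at hM1
  calc S * D * (1 + ‖x‖) ^ g ≤ (1 + (M : ℝ)) ^ b * ε * (1 + ‖x‖) ^ g := by gcongr
    _ = ε * ((1 + ‖x‖) ^ g * (1 + (M : ℝ)) ^ b) := by ring

end

end Pool.Agent.N768.NP.HopM
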